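import Pool.Agent.LGD.Stmts

set_option autoImplicit false

/-! # Row GDB: no change near `Y` -/

namespace Pool.Agent.LGD.H77

open Finset

theorem gdb : GdbStmt := by
  intro f a b Q Y ha hb hch
  have key : ∀ (j n : ℕ), |(n : ℝ) - Y| ≤ 4 * Q →
      |((n + j : ℕ) : ℝ) - Y| ≤ 4 * Q → f (n + j) = f n := by
    intro j
    induction j with
    | zero => intro n _ _; rfl
    | succ j ih =>
      intro n h1 h2
      have hj : (0 : ℝ) ≤ (j : ℝ) := Nat.cast_nonneg j
      have h3 : |((n + j : ℕ) : ℝ) - Y| ≤ 4 * Q := by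
        rw [abs_le] at h1 h2 ⊢
        push_cast at h2 ⊢
        constructor
        · linarith [h1.1]
        · linarith [h2.2]
      rw [← ih n h1 h3]
      by_contra hne
      have hmem : n + j ∈ CH f a b := by
        rw [CH, Finset.mem_filter, Finset.mem_Icc]
        have h4 := abs_le.mp h3
        refine ⟨⟨?_, ?_⟩, ?_⟩
        · have h5 : (a : ℝ) ≤ ((n + j : ℕ) : ℝ) := by linarith [h4.1]
          exact_mod_cast h5
        · have h5 : ((n + j : ℕ) : ℝ) ≤ (b : ℝ) := by linarith [h4.2]
          exact_mod_cast h5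
        · intro he
          apply hne
          rw [he]
          rfl
      have h6 := hch _ hmem
      linarith
  by_cases hex : ∃ n0 : ℕ, |(n0 : ℝ) - Y| ≤ 4 * Q
  · obtain ⟨n0, h0⟩ := hex
    refine ⟨f n0, ?_⟩
    intro n h
    rcases le_total n n0 with hle | hle
    · obtain ⟨j, rfl⟩ := Nat.exists_eq_add_of_le hle
      exact (key j n h h0).symm
    · obtain ⟨j, rfl⟩ := Nat.exists_eq_add_of_le hle
      exact key j n0 h0 h
  · exact ⟨1, fun n h => absurd ⟨n, h⟩ hex⟩

end Pool.Agent.LGD.H77
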